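import Pool.Agent.P.MP_9a799e_nt.Count

set_option autoImplicit false

namespace Pool.Agent.Results.MP_9a799e_nt.Counting

/-- The exponent `1 - (φ(s)/s) * log(s / ⌈s/2⌉) / log s`. -/
noncomputable def theta (s : ℕ) : ℝ :=
  1 - (Nat.totient s : ℝ) / s * Real.log (s / (⌈(s : ℝ) / 2⌉₊ : ℝ)) / Real.log s

theorem result (s : ℕ) (hs : 2 ≤ s) :
    theta s < 1 ∧ ∀ X : ℕ, 1 ≤ X →
      ({r : ℕ | r ≤ X ∧ r.Coprime s ∧ ∀ n : ℕ, 1 ≤ n → Odd ⌊((r : ℚ) / s) ^ n⌋}.ncard : ℝ) ≤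
        2 * (s : ℝ) ^ s * (X : ℝ) ^ theta s := by
  have e : ⌈(s : ℝ) / 2⌉₊ = s - s / 2 := by
    rw [Nat.ceil_eq_iff (by omega)]
    have h1 : ((s - s / 2 - 1 : ℕ) : ℝ) * 2 < s := by exact_mod_cast (by omega)
    have h2 : (s : ℝ) ≤ ((s - s / 2 : ℕ) : ℝ) * 2 := by exact_mod_cast (by omega)
    constructor <;> linarith
  unfold theta
  rw [e]
  exact ⟨Pool.Agent.P.MP_9a799e_nt.theta_lt hs, Pool.Agent.P.MP_9a799e_nt.count_real hs⟩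

end Pool.Agent.Results.MP_9a799e_nt.Counting
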