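import Pool.Agent.P.MP_9a799e_nt.FLP.E

/-! The fractional parts of `ξ (p / q) ^ n` leave every arc of length `1 / p` infinitely often,
even when the arc is enlarged by `θ ^ n` on both sides. -/

namespace Pool.Agent.Results.MP_9a799e_nt.ShortArcs

theorem result (p q : ℕ) (hq : 2 ≤ q) (hpq : q < p) (hcop : Nat.Coprime p q) (ξ s θ : ℝ)
    (hξ : ξ ≠ 0) (h0 : 0 < θ) (h1 : θ < 1) :
    {n : ℕ | ∀ k : ℤ, ξ * ((p : ℝ) / q) ^ n - k ∉
      Set.Icc (s - θ ^ n) (s + 1 / p + θ ^ n)}.Infinite :=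
  Nat.frequently_atTop_iff_infinite.1 (Pool.Agent.P.MP_9a799e_nt.FLP.main hq hpq hcop hξ h0 h1)

end Pool.Agent.Results.MP_9a799e_nt.ShortArcs
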