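import Pool.Agent.P.MP_9a799e_nt.Range

set_option autoImplicit false

namespace Pool.Agent.Results.MP_9a799e_nt.SmallBase

theorem result (x : ℝ) (h1 : 1 < x) (h2 : x ≤ 127 / 64) :
    ∃ n : ℕ, 1 ≤ n ∧ Even ⌊x ^ n⌋ :=
  Pool.Agent.P.MP_9a799e_nt.range_real x h1 h2

end Pool.Agent.Results.MP_9a799e_nt.SmallBase
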