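import Pool.Agent.P.MP_9a799e_nt.ZMain

/-! Real numbers `ξ` with `⌊ξ (3/2)^n⌋` of constant parity: at most `K x^0.52` up to `x`. -/

set_option autoImplicit false

namespace Pool.Agent.Results.MP_9a799e_nt.ZNumbers

theorem result : ∃ K : ℝ, ∀ (b : ℤ) (x : ℝ), 1 ≤ x →
    {ξ : ℝ | |ξ| ≤ x ∧ ∀ n : ℕ, 1 ≤ n → ⌊ξ * (3 / 2) ^ n⌋ ≡ b [ZMOD 2]}.Finite ∧
    (({ξ : ℝ | |ξ| ≤ x ∧ ∀ n : ℕ, 1 ≤ n → ⌊ξ * (3 / 2) ^ n⌋ ≡ b [ZMOD 2]}.ncard : ℕ) : ℝ) ≤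
      K * x ^ (13 / 25 : ℝ) :=
  Pool.Agent.P.MP_9a799e_nt.Z.main

end Pool.Agent.Results.MP_9a799e_nt.ZNumbers
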